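import Pool.Agent.Helper51.CX.St

set_option autoImplicit false

/-!
Project CX (MP_a41ee4_co), module MAIN: the strong walk does not exist.
-/

namespace Pool.Agent.Helper34.CX

open Pool.Agent.Helper51.CX Module

section

variable {K : Type} [Field K] [LinearOrder K] [IsStrictOrderedRing K]

private theorem circ_smul {g : Fin 6 → K} {α : K} (hα : 0 < α)
    (h : Pool.Agent.Helper4.CD.IsCircuit (cc K) g) :
    Pool.Agent.Helper4.CD.IsCircuit (cc K) (α • g) := by
  obtain ⟨h1, h2⟩ := h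
  have key : ∀ k, cc K k (α • g) = 0 ↔ cc K k g = 0 := by
    intro k
    rw [map_smul, smul_eq_mul, mul_eq_zero]
    constructor
    · rintro (h | h)
      · exact absurd h hα.ne'
      · exact h
    · exact fun h => Or.inr h
  refine ⟨smul_ne_zero hα.ne' h1, fun x hx hk k hk0 => ?_⟩
  rw [key]
  exact h2 x hx (fun l hl => hk l ((key l).2 hl)) k hk0

private theorem vv_five : vv K 5 = 1 := by
  unfold vv
  rw [if_pos rfl]

private theorem vv_two : vv K 2 = 0 := by
  unfold vv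
  rw [if_neg (by decide)]

private theorem vv_zero : vv K 0 = 0 := by
  unfold vv
  rw [if_neg (by decide)]

private theorem vv_one : vv K 1 = 0 := by
  unfold vv
  rw [if_neg (by decide)]

private theorem vv_three : vv K 3 = 0 := by
  unfold vv
  rw [if_neg (by decide)]

private theorem vv_four : vv K 4 = 0 := by
  unfold vv
  rw [if_neg (by decide)]

private theorem UR_pos (m : ℕ) : 0 < UR K m (vv K) := by
  match m with
  | 0 | 1 =>
    change (0 : K) < 50 * vv K 5 - _ * vv K 0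
    rw [vv_five, vv_zero]
    norm_num
  | 2 | 3 =>
    change (0 : K) < 50 * vv K 5 - _ * (vv K 1 - (vv K 2 + 3 * vv K 3 + 9 * vv K 4))
    rw [vv_five, vv_one, vv_two, vv_three, vv_four]
    norm_num
  | 4 | 5 =>
    change (0 : K) < vv K 5 - _ * vv K 2
    rw [vv_five, vv_two]
    norm_num
  | 6 | 7 =>
    change (0 : K) < vv K 5 - _ * vv K 3
    rw [vv_five, vv_three]
    norm_num
  | 8 =>
    change (0 : K) < vv K 5 - _ * vv K 4
    rw [vv_five, vv_four]
    norm_num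
  | _ + 9 =>
    change (0 : K) < vv K 5 - _ * vv K 4
    rw [vv_five, vv_four]
    norm_num

/-- a row which is tight at `vv` is a V-row -/
private theorem row_lt (k : Fin 74) (h : cc K k (vv K) = rr K k) : k.val < 64 := by
  by_contra hk
  have h1 : cc K k (vv K) = UR K (k.val - 64) (vv K) := by
    simp only [cc, if_neg hk]
  have h2 : rr K k = 0 := by
    simp only [rr, if_neg hk]
  rw [h1, h2] at h
  exact (UR_pos (K := K) (k.val - 64)).ne' h

/-- the data of one step -/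
private theorem step_data {n : ℕ} {z : ℕ → Fin 6 → K} {h : Fin n → Fin 74}
    (hzn : z n = vv K)
    (hst : ∀ i : Fin n, Pool.Agent.Helper4.CD.Step (cc K) (rr K) (z i) (z (i + 1)) ∧
      rr K (h i) < cc K (h i) (z i) ∧
      ∀ l : ℕ, (i : ℕ) < l → l ≤ n → cc K (h i) (z l) = rr K (h i)) (i : ℕ) (hi : i < n) :
    ∃ (k : ℕ) (d : Fin 6 → K), k < 64 ∧ Pool.Agent.Helper4.CD.IsCircuit (cc K) d ∧
      z (i + 1) = z i + d ∧ L k (z i) < 10 ^ 60 ∧
      ∀ l, i < l → l ≤ n → L k (z l) = 10 ^ 60 := by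
  obtain ⟨⟨g, α, hg, hα, hz, -, -⟩, hlt, htight⟩ := hst ⟨i, hi⟩
  have hv := htight n hi le_rfl
  rw [hzn] at hv
  have hk := row_lt _ hv
  have hc : cc K (h ⟨i, hi⟩) = VR K (h ⟨i, hi⟩).val ∧ rr K (h ⟨i, hi⟩) = -10 ^ 60 :=
    cc_lo (h ⟨i, hi⟩).val hk (h ⟨i, hi⟩).2
  refine ⟨(h ⟨i, hi⟩).val, α • g, hk, circ_smul hα hg, hz, ?_, fun l hl hln => ?_⟩
  · rw [hc.1, hc.2, VR_apply] at hlt
    exact neg_lt_neg_iff.1 hlt
  · have := htight l hl hln
    rw [hc.1, hc.2, VR_apply] at this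
    exact neg_injective this

/-- differences vanish on rows tight at both ends -/
private theorem diff_zero {k : ℕ} {x y d : Fin 6 → K} (hy : y = x + d)
    (h1 : L k x = 10 ^ 60) (h2 : L k y = 10 ^ 60) : L k d = 0 := by
  rw [hy, L_add, h1] at h2
  linarith

private theorem near_ne {v : K} {m : ℕ} (hm : (1 : K) < 10 ^ m)
    (h : 10 ^ m * |v * vv K 2 - 1| ≤ 1) : False := by
  rw [vv_two, mul_zero, zero_sub, abs_neg, abs_one, mul_one] at h
  linarith

end

theorem hMAIN : StNEAR → StPOL → StLA → StLB → StLC → StLD → StMAIN := by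
  intro hNEAR hPOL hLA hLB hLC hLD K _ _ _ hNB
  obtain ⟨n, -, z, h, hz0, hzn, hpt, hst⟩ := hNB 6 74 (cc K) (rr K) 0 (vv K) (hNEAR K)
  have hF : ∀ i ≤ n, Feas (z i) := fun i hi => (hPOL K (z i)).1 (hpt i hi).1
  have hn0 : 0 < n := by
    rcases Nat.eq_zero_or_pos n with h0 | h0
    · exfalso
      subst h0
      rw [hz0] at hzn
      have h1 := congrFun hzn 5
      rw [vv_five] at h1
      exact zero_ne_one h1
    · exact h0
  -- step 0
  obtain ⟨k0, d0, hk0, hc0, e0, -, t0⟩ := step_data hzn hst 0 hn0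
  have hz1 : z 1 = d0 := by
    rw [zero_add, hz0, zero_add] at e0
    exact e0
  obtain ⟨j, hS1, huniq⟩ := hLA K d0 hc0 (hz1 ▸ hF 1 hn0)
    ⟨k0, hk0, hz1 ▸ t0 1 one_pos hn0⟩
  have hk0j : k0 = j := huniq k0 hk0 (hz1 ▸ t0 1 one_pos hn0)
  rw [hk0j] at t0
  rw [← hz1] at hS1
  have hn1 : 1 < n := by
    rcases lt_or_eq_of_le (Nat.succ_le_of_lt hn0) with h0 | h0
    · exact h0
    · exfalso
      have h1 := hS1.e2
      have h0' : (1 : ℕ) = n := h0
      rw [h0', hzn, vv_two, vv_five, one_mul] at h1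
      obtain ⟨-, h2, -⟩ := sgn (K := K) j hS1.lo hS1.hi
      rw [← h1] at h2
      rcases h2 with h2 | h2
      · exact zero_ne_one h2
      · linarith
  -- step 1
  obtain ⟨k1, d1, hk1, hc1, e1, l1, t1⟩ := step_data hzn hst 1 hn1
  have a1 := diff_zero e1 (t0 1 one_pos hn0) (t0 2 (by omega) hn1)
  have hk1j : k1 ≠ j := by
    rintro rfl
    exact absurd (t0 1 one_pos hn0) l1.ne
  have hS2 : S2 j k1 (z 2) := by
    have e1' : z 2 = z 1 + d1 := e1
    rw [e1']
    exact hLB K j k1 (z 1) d1 hS1 hc1 (e1' ▸ hF 2 hn1) a1 hk1 hk1j (e1' ▸ t1 2 (by omega) hn1)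
  have hn2 : 2 < n := by
    rcases lt_or_eq_of_le (Nat.succ_le_of_lt hn1) with h0 | h0
    · exact h0
    · exfalso
      have h1 := hS2.n2
      have h0' : (2 : ℕ) = n := h0
      rw [h0', hzn] at h1
      exact near_ne (m := 6) (by norm_num) h1
  -- step 2
  obtain ⟨k2, d2, hk2, hc2, e2, l2, t2⟩ := step_data hzn hst 2 hn2
  have e2' : z 3 = z 2 + d2 := e2
  have a2 := diff_zero e2' (t0 2 (by omega) hn1) (t0 3 (by omega) hn2)
  have b2 := diff_zero e2' (t1 2 (by omega) hn1) (t1 3 (by omega) hn2)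
  have hC := hLC K j k1 k2 (z 2) d2 hS2 hc2 (e2' ▸ hF 3 hn2) a2 b2 hk2 l2
    (e2' ▸ t2 3 (by omega) hn2)
  rw [← e2'] at hC
  obtain ⟨hS3, hgap⟩ := hC
  have hn3 : 3 < n := by
    rcases lt_or_eq_of_le (Nat.succ_le_of_lt hn2) with h0 | h0
    · exact h0
    · exfalso
      have h1 := hS3.n2
      have h0' : (3 : ℕ) = n := h0
      rw [h0', hzn] at h1
      exact near_ne (m := 5) (by norm_num) h1
  -- step 3
  obtain ⟨k3, d3, hk3, hc3, e3, l3, t3⟩ := step_data hzn hst 3 hn3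
  have e3' : z 4 = z 3 + d3 := e3
  have a3 := diff_zero e3' (t0 3 (by omega) hn2) (t0 4 (by omega) hn3)
  have b3 := diff_zero e3' (t1 3 (by omega) hn2) (t1 4 (by omega) hn3)
  have c3 := diff_zero e3' (t2 3 (by omega) hn2) (t2 4 (by omega) hn3)
  rcases hgap with ⟨h1, h2⟩ | ⟨h1, h2⟩
  · rw [h1] at b3
    rw [h2] at c3
    exact hLD K j k3 (z 3) d3 hS3 hc3 (e3' ▸ hF 4 hn3) a3 b3 c3 hk3 l3
      (e3' ▸ t3 4 (by omega) hn3)
  · rw [h1] at b3
    rw [h2] at c3
    exact hLD K j k3 (z 3) d3 hS3 hc3 (e3' ▸ hF 4 hn3) a3 c3 b3 hk3 l3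
      (e3' ▸ t3 4 (by omega) hn3)

end Pool.Agent.Helper34.CX
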